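import Pool.Agent.Y188.NS.Quot

/-!
# Quotients of complete intersection numerical semigroups: every large divisor

The starting result `CIQuotient` says that every numerical semigroup `T` is `S/d` for some complete
intersection numerical semigroup `S` and some `d`. Here the set of all possible `d` is shown to
contain every sufficiently large integer, and to be closed under multiples.
-/

set_option autoImplicit false

namespace Pool.Agent.Results.MP_325c15_al.AllLargeDivisors

open Pool.Agent.Results.MP_325c15_al.CIQuotient

/-- `T` is the quotient `S/d` of a complete intersection numerical semigroup `S` by `d` -/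
def IsQuotientBy (T : AddSubmonoid ℕ) (d : ℕ) : Prop :=
  ∃ S : AddSubmonoid ℕ, {x : ℕ | x ∉ S}.Finite ∧ IsCompleteIntersection S ∧
    ∀ x : ℕ, x ∈ T ↔ d * x ∈ S

/-- **Quotients of complete intersection numerical semigroups.** For every numerical semigroup `T`
the set of the integers `d ≥ 1` for which `T` is the quotient `S/d` of some complete intersection
numerical semigroup `S` contains all sufficiently large integers, and it contains all multiples of
its members. -/
theorem result :
    ∀ T : AddSubmonoid ℕ, {x : ℕ | x ∉ T}.Finite →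
      (∃ d₀ : ℕ, ∀ d : ℕ, d₀ ≤ d → IsQuotientBy T d) ∧
      (∀ d k : ℕ, 1 ≤ d → 1 ≤ k → IsQuotientBy T d → IsQuotientBy T (k * d)) := by
  intro T hT
  constructor
  · obtain ⟨d₀, h⟩ := Pool.Agent.Y188.NS.Q_large T hT
    refine ⟨d₀, fun d hd => ?_⟩
    obtain ⟨S, h1, h2, h3⟩ := h d hd
    exact ⟨S, h1, wci_isCI S h2, h3⟩
  · rintro d k - hk ⟨S, h1, h2, h3⟩
    obtain ⟨S', h4, h5, h6⟩ := Pool.Agent.Y188.NS.Q_mul (T := T) (d := d)
      ⟨S, h1, Pool.Agent.Y188.NS.isCI_wci h1 h2, h3⟩ hk
    exact ⟨S', h4, wci_isCI S' h5, h6⟩

end Pool.Agent.Results.MP_325c15_al.AllLargeDivisors
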