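import Pool.Agent.Y188.NS.Quot

/-!
# Finitely many numerical semigroups are quotients of one complete intersection

The starting result `CIQuotient` says that every numerical semigroup is a quotient of some complete
intersection numerical semigroup. Here finitely many numerical semigroups are obtained as quotients
of one and the same complete intersection, by pairwise coprime divisors.
-/

set_option autoImplicit false

namespace Pool.Agent.Results.MP_325c15_al.CommonQuotients

open Pool.Agent.Results.MP_325c15_al.CIQuotient

/-- **Common quotients.** For all numerical semigroups `T_1, …, T_k` and every `m ≥ 1` there are one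
complete intersection numerical semigroup `S` and pairwise coprime integers `d_1, …, d_k ≥ 2`, all
coprime to `m`, such that `T_i = S/d_i` for every `i`. -/
theorem result :
    ∀ (k : ℕ) (T : Fin k → AddSubmonoid ℕ), (∀ i, {x : ℕ | x ∉ T i}.Finite) →
      ∀ m : ℕ, 1 ≤ m → ∃ (S : AddSubmonoid ℕ) (d : Fin k → ℕ),
        {x : ℕ | x ∉ S}.Finite ∧ IsCompleteIntersection S ∧
        (∀ i, 2 ≤ d i ∧ Nat.Coprime (d i) m) ∧ (∀ i j, i ≠ j → Nat.Coprime (d i) (d j)) ∧
        ∀ i x, x ∈ T i ↔ d i * x ∈ S := by
  intro k T hT m hm
  obtain ⟨S, d, h1, h2, h3, h4, h5, h6⟩ := Pool.Agent.Y188.NS.common k T hT m hm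
  exact ⟨S, d, h1, wci_isCI S h2, fun i => ⟨h3 i, h4 i⟩, h5, h6⟩

end Pool.Agent.Results.MP_325c15_al.CommonQuotients
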